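import Pool.Agent.Lib.MP_ce212d_co.Planar

/-!
Incomplete arrays on a core of order `p ^ 2` with holes `0`, `p - 1`, `p` (`p = 3 ^ e`, `e` odd)
and the construction of Wilson with one weighted column.
-/

namespace Pool.Agent.FS.EvenOrders

open Pool.Agent.Lib.MP_ce212d_co Finset

/-- An array on the symbols `G ⊕ H` that covers all pairs outside the hole `H` and has the right
number of rows. -/
def Cov (ι G : Type) [Fintype G] (h : ℕ) : Prop :=
  ∃ (H ρ : Type) (_ : Fintype H) (_ : Fintype ρ) (x : ρ → ι → G ⊕ H), Fintype.card H = h ∧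
    Fintype.card ρ = Fintype.card G ^ 2 + 2 * Fintype.card G * h ∧
    ∀ i l, i ≠ l → (∀ y z, ∃ r, x r i = Sum.inl y ∧ x r l = Sum.inl z) ∧
      ∀ y e, ∃ r, x r i = Sum.inl y ∧ x r l = Sum.inr e

theorem Cov.comp {ι ι' G : Type} [Fintype G] {h : ℕ} (hc : Cov ι G h) (f : ι' ↪ ι) :
    Cov ι' G h := by
  obtain ⟨H, ρ, iH, iρ, x, h1, h2, h3⟩ := hc
  exact ⟨H, ρ, iH, iρ, fun r i => x r (f i), h1, h2,
    fun i l hil => h3 (f i) (f l) fun e => hil (f.injective e)⟩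

theorem wilsonW {k t : ℕ} {G : Type} [Fintype G] (hk : 2 ≤ k) (h : Fin t → ℕ)
    (hM : Good (k + 1) t) (hc : ∀ s, Cov (Fin k) G (h s)) (hW : Good k (∑ s, h s)) :
    Good k (Fintype.card G * t + ∑ s, h s) := by
  classical
  choose H ρ iH iρ x hH hρ hx using hc
  obtain ⟨σ, M, hM⟩ := hM.exists_isOA (Option (Fin k)) (Fin t) (by simp) (by simp)
  have hcW : Fintype.card (Σ s, H s) = ∑ s, h s := by simp [Fintype.card_sigma, hH]
  obtain ⟨ω, W, hW⟩ := hW.exists_isOA (Fin k) (Σ s, H s) (by simp) hcW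
  let i0 : Fin k := ⟨0, by omega⟩
  let i1 : Fin k := ⟨1, by omega⟩
  let eM := Equiv.ofBijective _ (hM none (some i0) (by simp))
  let eW := Equiv.ofBijective _ (hW i0 i1 (by simp [i0, i1]))
  have hMn : ∀ b : σ, eM.symm (M b none, M b (some i0)) = b := fun b => eM.symm_apply_apply b
  let F : (Σ s : Fin t, Fin t × ρ s) ⊕ ((Σ s, H s) × (Σ s, H s)) → Fin k →
      (Fin t × G) ⊕ (Σ s, H s) :=
    Sum.elim (fun q c => Sum.map (fun y => (M (eM.symm (q.1, q.2.1)) (some c), y))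
      (fun e => ⟨q.1, e⟩) (x q.1 q.2.2 c)) fun q c => Sum.inr (W (eW.symm q) c)
  have mixed : ∀ i l, i ≠ l → ∀ (a : Fin t × G) (e : Σ s, H s),
      ∃ q, F q i = Sum.inl a ∧ F q l = Sum.inr e := by
    rintro i l hil ⟨a, y⟩ ⟨s, e⟩
    obtain ⟨b, hb⟩ := (hM none (some i) (by simp)).2 (s, a)
    obtain ⟨rfl, rfl⟩ := Prod.mk.inj hb
    obtain ⟨r, h1, h2⟩ := (hx (M b none) i l hil).2 y e
    exact ⟨Sum.inl ⟨M b none, M b (some i0), r⟩, by simp [F, h1, hMn], by simp [F, h2]⟩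
  have hF : IsOA F := by
    intro i l hil
    rw [Fintype.bijective_iff_surjective_and_card]
    constructor
    · rintro ⟨⟨a, y⟩ | e, ⟨a', y'⟩ | e'⟩
      · obtain ⟨b, hb⟩ := (hM (some i) (some l) (by simpa using hil)).2 (a, a')
        obtain ⟨rfl, rfl⟩ := Prod.mk.inj hb
        obtain ⟨r, h1, h2⟩ := (hx (M b none) i l hil).1 y y'
        exact ⟨Sum.inl ⟨M b none, M b (some i0), r⟩, by simp [F, h1, h2, hMn]⟩
      · obtain ⟨q, h1, h2⟩ := mixed i l hil (a, y) e'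
        exact ⟨q, Prod.ext h1 h2⟩
      · obtain ⟨q, h1, h2⟩ := mixed l i hil.symm (a', y') e
        exact ⟨q, Prod.ext h2 h1⟩
      · obtain ⟨b, hb⟩ := (hW i l hil).2 (e, e')
        obtain ⟨rfl, rfl⟩ := Prod.mk.inj hb
        exact ⟨Sum.inr (eW b), by simp [F]⟩
    · simp only [Fintype.card_sum, Fintype.card_prod, hcW, Fintype.card_fin]
      rw [Fintype.card_sigma]
      simp only [Fintype.card_prod, Fintype.card_fin, hρ, mul_add, sum_add_distrib, ← mul_sum,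
        sum_const, card_univ, smul_eq_mul]
      ring
  exact good_of_isOA hF (by simp) (by
    simp only [Fintype.card_sum, Fintype.card_prod, hcW, Fintype.card_fin]; ring)

theorem cov_zero (K : Type) [Field K] [Fintype K] : Cov K (K × K) 0 := by
  refine ⟨Empty, K × K × K × K, inferInstance, inferInstance,
    fun q c => Sum.inl (q.1 + q.2.1 * c, q.2.2.1 + q.2.2.2 * c), by simp,
    by simp only [Fintype.card_prod]; ring, fun x z hxz => ⟨?_, fun _ e => e.elim⟩⟩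
  rintro ⟨y1, y2⟩ ⟨w1, w2⟩
  have hd : x - z ≠ 0 := sub_ne_zero.2 hxz
  obtain ⟨a, ha⟩ : ∃ a : K, a * (x - z) = y1 - w1 := ⟨_, div_mul_cancel₀ _ hd⟩
  obtain ⟨b, hb⟩ : ∃ b : K, b * (x - z) = y2 - w2 := ⟨_, div_mul_cancel₀ _ hd⟩
  refine ⟨(w1 - a * z, a, w2 - b * z, b), ?_, ?_⟩
  · simp only [Sum.inl.injEq, Prod.mk.injEq]
    exact ⟨by linear_combination ha, by linear_combination hb⟩
  · simp

/-- The rows for the hole of size `p - 1`. -/
def rowQ {K : Type} [Field K] [DecidableEq K] (n : ℕ) :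
    (K × K × K × K) ⊕ (Bool × {j : K // j ≠ 0} × K × K) → K → (K × K) ⊕ {j : K // j ≠ 0}
  | Sum.inl (κ, η, g, h), c =>
      if hh : η ≠ 0 ∧ κ = 2 * η ^ n * c then Sum.inr ⟨η, hh.1⟩
      else Sum.inl (g + (κ * c - η ^ n * c ^ 2), h + η * c)
  | Sum.inr (b, j, g, h), c =>
      Sum.inl (g + j.1 * c, h + (if b then 1 else -1) * c ^ 3 * j.1⁻¹ ^ 2)

theorem cov_pred {K : Type} [Field K] [Fintype K] [CharP K 3] {n : ℕ}
    (hK : Fintype.card K = 4 * n + 3) : Cov K (K × K) (4 * n + 2) := by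
  classical
  have : Fact (Nat.Prime 3) := ⟨Nat.prime_three⟩
  have h3 : (3 : K) = 0 := by exact_mod_cast CharP.cast_eq_zero K 3
  have h2 : (2 : K) ≠ 0 := fun h => one_ne_zero (α := K) (by linear_combination h3 - h)
  have hH : Fintype.card {j : K // j ≠ 0} = 4 * n + 2 := by
    rw [Fintype.card_subtype_compl, hK]; simp
  refine ⟨_, _, inferInstance, inferInstance, rowQ n, hH,
    by simp only [Fintype.card_sum, Fintype.card_prod, hH, Fintype.card_bool]; ring,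
    fun x z hxz => ⟨?_, ?_⟩⟩
  · rintro ⟨y1, y2⟩ ⟨w1, w2⟩
    have hd : x - z ≠ 0 := sub_ne_zero.2 hxz
    have hcube : x ^ 3 - z ^ 3 = (x - z) ^ 3 := (sub_pow_char x z).symm
    obtain ⟨a, ha⟩ : ∃ a : K, a * (x - z) = y1 - w1 := ⟨_, div_mul_cancel₀ _ hd⟩
    obtain ⟨η, hη⟩ : ∃ b : K, b * (x - z) = y2 - w2 := ⟨_, div_mul_cancel₀ _ hd⟩
    by_cases h0 : η ≠ 0 ∧ (a + η ^ n * (x + z) = 2 * η ^ n * x ∨
        a + η ^ n * (x + z) = 2 * η ^ n * z)
    · obtain ⟨hη0, h0⟩ := h0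
      have ha2 : a ^ 2 = (η ^ n) ^ 2 * (x - z) ^ 2 := by
        rcases h0 with h0 | h0
        · rw [show a = η ^ n * (x - z) by linear_combination h0]; ring
        · rw [show a = -(η ^ n * (x - z)) by linear_combination h0]; ring
      have ha0 : a ≠ 0 := by
        rintro rfl
        exact mul_ne_zero (pow_ne_zero 2 (pow_ne_zero n hη0)) (pow_ne_zero 2 hd)
          (by rw [← ha2]; ring)
      have hε : ((η ^ n) ^ 2 * η) * ((η ^ n) ^ 2 * η) = 1 := by
        have := FiniteField.pow_card_sub_one_eq_one η hη0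
        rw [hK] at this
        rw [← this, show 4 * n + 3 - 1 = 4 * n + 2 by omega]; ring
      obtain ⟨b, hb⟩ : ∃ b : Bool, (if b then 1 else -1 : K) = (η ^ n) ^ 2 * η := by
        rcases mul_self_eq_one_iff.1 hε with h | h
        · exact ⟨true, by simp [h]⟩
        · exact ⟨false, by simp [h]⟩
      have hinv : a * a⁻¹ = 1 := mul_inv_cancel₀ ha0
      refine ⟨Sum.inr (b, ⟨a, ha0⟩, w1 - a * z,
        w2 - (if b then 1 else -1) * z ^ 3 * a⁻¹ ^ 2), ?_, ?_⟩
      · simp only [rowQ, Sum.inl.injEq, Prod.mk.injEq, hb]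
        refine ⟨by linear_combination ha, ?_⟩
        linear_combination hη + ((η ^ n) ^ 2 * η * a⁻¹ ^ 2) * hcube
          - (η * (x - z) * a⁻¹ ^ 2) * ha2 + (η * (x - z) * (a * a⁻¹ + 1)) * hinv
      · simp [rowQ]
    · have hx : ¬(η ≠ 0 ∧ a + η ^ n * (x + z) = 2 * η ^ n * x) := fun h => h0 ⟨h.1, Or.inl h.2⟩
      have hz : ¬(η ≠ 0 ∧ a + η ^ n * (x + z) = 2 * η ^ n * z) := fun h => h0 ⟨h.1, Or.inr h.2⟩
      refine ⟨Sum.inl (a + η ^ n * (x + z), η,
        w1 - ((a + η ^ n * (x + z)) * z - η ^ n * z ^ 2), w2 - η * z), ?_, ?_⟩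
      · simp only [rowQ, dif_neg hx, Sum.inl.injEq, Prod.mk.injEq]
        exact ⟨by linear_combination ha, by linear_combination hη⟩
      · simp only [rowQ, dif_neg hz, Sum.inl.injEq, Prod.mk.injEq]
        exact ⟨by ring, by ring⟩
  · rintro ⟨y1, y2⟩ ⟨η, hη⟩
    have hx : ¬(η ≠ 0 ∧ 2 * η ^ n * z = 2 * η ^ n * x) := fun h =>
      hxz (mul_left_cancel₀ (mul_ne_zero h2 (pow_ne_zero n hη)) h.2).symm
    refine ⟨Sum.inl (2 * η ^ n * z, η, y1 - (2 * η ^ n * z * x - η ^ n * x ^ 2), y2 - η * x),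
      ?_, ?_⟩
    · simp only [rowQ, dif_neg hx, Sum.inl.injEq, Prod.mk.injEq]
      exact ⟨by ring, by ring⟩
    · simp [rowQ, hη]

/-- The rows for the hole of size `p`. -/
def rowP {K : Type} [Field K] [DecidableEq K] (n : ℕ) :
    (K × K × K × K) ⊕ (Bool × K × K × K) → K → (K × K) ⊕ K
  | Sum.inl (i, a, g, h), x =>
      if x = a then Sum.inr i else Sum.inl (g + ((x - a) ^ n + i * x ^ 3), h + i * x)
  | Sum.inr (b, c, g, h), x =>
      Sum.inl (g + c * x ^ 3, h + ((if b then 1 else -1) * x ^ 3 + c * x))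

theorem cov_full {K : Type} [Field K] [Fintype K] [CharP K 3] {e : ℕ} (he : Odd e)
    (hK : Fintype.card K = 3 ^ e) : Cov K (K × K) (3 ^ e) := by
  classical
  have : Fact (Nat.Prime 3) := ⟨Nat.prime_three⟩
  obtain ⟨m, hm⟩ : Odd (3 ^ (e + 2)) := Odd.pow (by decide)
  have hsq : ∀ t : K, (t ^ (m + 1)) ^ 2 = t ^ 10 := by
    intro t
    have h1 : t ^ 3 ^ e = t := by rw [← hK, FiniteField.pow_card]
    have h2 : (t ^ (m + 1)) ^ 2 = t ^ 3 ^ (e + 2) * t := by rw [hm]; ring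
    rw [h2, pow_add, pow_mul, h1]; ring
  refine ⟨K, _, inferInstance, inferInstance, rowP (m + 1), hK,
    by simp only [Fintype.card_sum, Fintype.card_prod, hK, Fintype.card_bool]; ring,
    fun x z hxz => ⟨?_, ?_⟩⟩
  · rintro ⟨y1, y2⟩ ⟨w1, w2⟩
    have hd : x - z ≠ 0 := sub_ne_zero.2 hxz
    have hcube : x ^ 3 - z ^ 3 = (x - z) ^ 3 := (sub_pow_char x z).symm
    obtain ⟨i, hi⟩ : ∃ i : K, i * (x - z) = y2 - w2 :=
      ⟨(y2 - w2) / (x - z), div_mul_cancel₀ _ hd⟩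
    obtain ⟨c, hc⟩ := Finite.injective_iff_surjective.1 (planar_cm he hK hm hd)
      (y1 - w1 - i * (x - z) ^ 3)
    have hc' : (c + (x - z)) ^ (m + 1) - c ^ (m + 1) = y1 - w1 - i * (x - z) ^ 3 := hc
    rw [show (∃ r, rowP (m + 1) r x = Sum.inl (y1, y2) ∧ rowP (m + 1) r z = Sum.inl (w1, w2)) ↔
      ∃ r, (rowP (m + 1) r x, rowP (m + 1) r z) = (Sum.inl (y1, y2), Sum.inl (w1, w2)) by simp]
    by_cases h0 : c = 0 ∨ c + (x - z) = 0
    · have h1 : (y1 - w1 - i * (x - z) ^ 3) ^ 2 = ((x - z) ^ 5) ^ 2 := by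
        rcases h0 with h0 | h0
        · rw [← hc', h0, zero_add, zero_pow (Nat.succ_ne_zero m), sub_zero, hsq]; ring
        · rw [← hc', h0, zero_pow (Nat.succ_ne_zero m), zero_sub, neg_sq, hsq,
            eq_neg_of_add_eq_zero_left h0]; ring
      rcases sq_eq_sq_iff_eq_or_eq_neg.1 h1 with h2 | h2
      · refine ⟨Sum.inr (false, i + (x - z) ^ 2, w1 - (i + (x - z) ^ 2) * z ^ 3,
          w2 - (-1 * z ^ 3 + (i + (x - z) ^ 2) * z)), ?_⟩
        simp only [rowP, Prod.mk.injEq, Sum.inl.injEq, Bool.false_eq_true, if_false]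
        refine ⟨⟨?_, ?_⟩, by ring, by ring⟩
        · linear_combination (i + (x - z) ^ 2) * hcube - h2
        · linear_combination hi - hcube
      · refine ⟨Sum.inr (true, i - (x - z) ^ 2, w1 - (i - (x - z) ^ 2) * z ^ 3,
          w2 - (1 * z ^ 3 + (i - (x - z) ^ 2) * z)), ?_⟩
        simp only [rowP, Prod.mk.injEq, Sum.inl.injEq, if_true]
        refine ⟨⟨?_, ?_⟩, by ring, by ring⟩
        · linear_combination (i - (x - z) ^ 2) * hcube - h2
        · linear_combination hi + hcube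
    · push Not at h0
      have hx : x ≠ z - c := fun h => h0.2 (by rw [h]; ring)
      have hz : z ≠ z - c := fun h => h0.1 (by linear_combination h)
      refine ⟨Sum.inl (i, z - c, w1 - (c ^ (m + 1) + i * z ^ 3), w2 - i * z), ?_⟩
      have e1 : x - (z - c) = c + (x - z) := by ring
      have e2 : z - (z - c) = c := by ring
      simp only [rowP, if_neg hx, if_neg hz, e1, e2, Prod.mk.injEq, Sum.inl.injEq]
      refine ⟨⟨?_, ?_⟩, by ring, by ring⟩
      · linear_combination hc' + i * hcube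
      · linear_combination hi
  · intro y i'
    refine ⟨Sum.inl (i', z, y.1 - ((x - z) ^ (m + 1) + i' * x ^ 3), y.2 - i' * x), ?_⟩
    simp [rowP, hxz]

end Pool.Agent.FS.EvenOrders
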