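import Pool.Agent.FS.EvenOrders.A
import Pool.Agent.Lib.MP_ce212d_co.SvF

/-!
Orders prime to three.
-/

namespace Pool.Agent.FS.EvenOrders

open Pool.Agent.Lib.MP_ce212d_co Finset

theorem sum_ind {t a : ℕ} (c : ℕ) (h : a ≤ t) :
    ∑ s : Fin t, (if s.1 < a then c else 0) = a * c := by
  rw [Fin.sum_univ_eq_sum_range (fun s => if s < a then c else 0) t, ← sum_filter]
  have : (range t).filter (fun s => s < a) = range a := by
    ext s; simp only [mem_filter, mem_range]; omega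
  rw [this]; simp

theorem core {e k t w : ℕ} (he : Odd e) (hk : 2 ≤ k) (hkp : k ≤ 3 ^ e) (ht : Good (k + 1) t)
    (hw : Good k w) (h1 : 3 ^ e * 3 ^ e ≤ w) (h2 : w ≤ 3 ^ e * t) :
    Good k (3 ^ e * 3 ^ e * t + w) := by
  classical
  have : Fact (Nat.Prime 3) := ⟨Nat.prime_three⟩
  have he0 : e ≠ 0 := by rintro rfl; simp at he
  let K := GaloisField 3 e
  let _ : Fintype K := Fintype.ofFinite K
  have hK : Fintype.card K = 3 ^ e := by
    rw [← Nat.card_eq_fintype_card]; exact GaloisField.card 3 e he0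
  obtain ⟨n, hn⟩ : ∃ n, 3 ^ e = 4 * n + 3 := by
    obtain ⟨j, rfl⟩ := he
    have h9 : 9 ^ j % 4 = 1 := by rw [Nat.pow_mod]; simp
    have h8 : 3 ^ (2 * j + 1) = 3 * 9 ^ j := by
      rw [show (9 : ℕ) = 3 ^ 2 by norm_num, ← pow_mul]; ring
    refine ⟨3 * (9 ^ j / 4), ?_⟩
    rw [h8]
    generalize 9 ^ j = y at h9 ⊢
    omega
  obtain ⟨f⟩ : Nonempty (Fin k ↪ K) :=
    Function.Embedding.nonempty_of_card_le (by simpa [hK] using hkp)
  have c0 := (cov_zero K).comp f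
  have c1 := (cov_pred (K := K) (hK.trans hn)).comp f
  have c2 := (cov_full he hK).comp f
  set p := 3 ^ e with hp
  obtain ⟨b, a, hba, ha⟩ : ∃ b a, w + a = b * p ∧ a < p := by
    have h3 := Nat.div_add_mod (w + (p - 1)) p
    have h4 := Nat.mod_lt (w + (p - 1)) (show 0 < p by omega)
    refine ⟨(w + (p - 1)) / p, p - 1 - (w + (p - 1)) % p, ?_, by omega⟩
    rw [mul_comm]; omega
  have hab : a ≤ b := by
    have : p ≤ b := Nat.le_of_mul_le_mul_right (show p * p ≤ b * p by omega) (by omega)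
    omega
  have hbt : b ≤ t := by
    have : b * p < (t + 1) * p := by nlinarith
    have := Nat.lt_of_mul_lt_mul_right this
    omega
  let h : Fin t → ℕ := fun s => if s.1 < a then 4 * n + 2 else if s.1 < b then p else 0
  have hs : ∑ s, h s = w := by
    have e1 : ∑ s, h s + ∑ s : Fin t, (if s.1 < a then 1 else 0) =
        ∑ s : Fin t, (if s.1 < b then p else 0) := by
      rw [← sum_add_distrib]
      refine sum_congr rfl fun s _ => ?_
      simp only [h]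
      split_ifs <;> omega
    rw [sum_ind 1 (hab.trans hbt), sum_ind p hbt] at e1
    omega
  have hc : ∀ s, Cov (Fin k) (K × K) (h s) := by
    intro s
    simp only [h]
    split_ifs <;> assumption
  have := wilsonW hk h ht hc (hs ▸ hw)
  rwa [hs, Fintype.card_prod, hK] at this

theorem exists_odd_pow {k : ℕ} (hk : 1 ≤ k) : ∃ e, Odd e ∧ k ≤ 3 ^ e ∧ 3 ^ e ≤ 9 * k := by
  induction k, hk using Nat.le_induction with
  | base => exact ⟨1, odd_one, by norm_num, by norm_num⟩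
  | succ k hk ih =>
    obtain ⟨e, h1, h2, h3⟩ := ih
    by_cases h : k + 1 ≤ 3 ^ e
    · exact ⟨e, h1, h, by omega⟩
    · refine ⟨e + 2, h1.add_even even_two, ?_, ?_⟩ <;> rw [pow_add] <;> omega

theorem window {k n p : ℕ} (hk : 1 ≤ k) (h1 : k ≤ p) (h2 : p ≤ 9 * k)
    (hn : 2916 ^ 2 * 2 ^ 13 * k ^ 17 ≤ n ^ 2) : ∃ X H : ℕ, 1 ≤ X ∧
      ((k + 1 : ℕ) : ℝ) ^ (11 / 2 : ℝ) ≤ H ∧ ∀ t, X ≤ t → t < X + H →
        ∃ w, n = p * p * t + w ∧ p * p ≤ w ∧ w ≤ p * t ∧ n ≤ 72 * k * w := by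
  obtain ⟨D, hD⟩ : ∃ D, D = n / (p * p + p) := ⟨_, rfl⟩
  obtain ⟨H, hH⟩ : ∃ H, H = D / (2 * p) := ⟨_, rfl⟩
  have hp : 0 < p := by omega
  have a1 : (p * p + p) * D ≤ n := hD ▸ Nat.mul_div_le n _
  have a2 : n < (p * p + p) * (D + 1) := hD ▸ Nat.lt_mul_div_succ n (by positivity)
  have a3 : 2 * p * H ≤ D := hH ▸ Nat.mul_div_le D _
  have a4 : D < 2 * p * (H + 1) := hH ▸ Nat.lt_mul_div_succ D (by positivity)
  have a5 : p * p + p ≤ 2 * (p * p) := by nlinarith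
  have a6 : n ≤ 2916 * k ^ 3 * (H + 1) := by
    calc n ≤ (p * p + p) * (D + 1) := a2.le
      _ ≤ 2 * (p * p) * (2 * p * (H + 1)) := Nat.mul_le_mul a5 a4
      _ ≤ 2 * (9 * k * (9 * k)) * (2 * (9 * k) * (H + 1)) := by gcongr
      _ = 2916 * k ^ 3 * (H + 1) := by ring
  have a7 : 2 ^ 13 * k ^ 11 ≤ (H + 1) ^ 2 := by
    refine Nat.le_of_mul_le_mul_left (c := 2916 ^ 2 * k ^ 6) ?_ (by positivity)
    calc 2916 ^ 2 * k ^ 6 * (2 ^ 13 * k ^ 11) = 2916 ^ 2 * 2 ^ 13 * k ^ 17 := by ring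
      _ ≤ n ^ 2 := hn
      _ ≤ (2916 * k ^ 3 * (H + 1)) ^ 2 := Nat.pow_le_pow_left a6 2
      _ = 2916 ^ 2 * k ^ 6 * (H + 1) ^ 2 := by ring
  have a8 : 1 ≤ k ^ 11 := Nat.one_le_pow _ _ hk
  have a9 : 1 ≤ H := by
    by_contra h
    obtain rfl : H = 0 := by omega
    omega
  have b1 : (k + 1) ^ 11 ≤ H ^ 2 := by
    have c1 : (k + 1) ^ 11 ≤ (2 * k) ^ 11 := Nat.pow_le_pow_left (by omega) 11
    have c2 : (H + 1) ^ 2 ≤ (2 * H) ^ 2 := Nat.pow_le_pow_left (by omega) 2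
    rw [mul_pow] at c1 c2
    omega
  refine ⟨D + 1, H, by omega, ?_, fun t t1 t2 => ?_⟩
  · refine (pow_le_pow_iff_left₀ (by positivity) (by positivity) two_ne_zero).1 ?_
    rw [← Real.rpow_natCast, ← Real.rpow_mul (by positivity),
      show (11 / 2 : ℝ) * ((2 : ℕ) : ℝ) = ((11 : ℕ) : ℝ) by norm_num, Real.rpow_natCast]
    exact_mod_cast b1
  · have b2 : p * p * t ≤ p * p * (D + H) := Nat.mul_le_mul_left _ (by omega)
    have b3 : p * (2 * p * H) ≤ p * D := Nat.mul_le_mul_left _ a3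
    have b4 : p * p ≤ p * p * H := Nat.le_mul_of_pos_right _ a9
    have b5 : (p * p + p) * (D + 1) ≤ (p * p + p) * t := Nat.mul_le_mul_left _ t1
    have b6 : p * p * t ≤ n := by nlinarith
    obtain ⟨w, hw⟩ := Nat.exists_eq_add_of_le b6
    have b7 : p * D ≤ 2 * w := by nlinarith
    have b8 : 1 ≤ D := by nlinarith
    refine ⟨w, hw, by nlinarith, by nlinarith, ?_⟩
    calc n ≤ (p * p + p) * (D + 1) := a2.le
      _ ≤ 2 * (p * p) * (2 * D) := Nat.mul_le_mul a5 (by omega)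
      _ = 4 * p * (p * D) := by ring
      _ ≤ 4 * (9 * k) * (2 * w) := by gcongr
      _ = 72 * k * w := by ring

theorem good_even : ∃ k₀ : ℕ, ∀ k n : ℕ, k₀ ≤ k → Even n → ¬3 ∣ n →
    2916 ^ 2 * 2 ^ 13 * k ^ 17 ≤ n ^ 2 → Good k n := by
  classical
  obtain ⟨z₀, hz⟩ := sieve_two
  refine ⟨z₀ + 2, fun k n hk hev h3 hn => ?_⟩
  obtain ⟨e, he, p1, p2⟩ := exists_odd_pow (show 1 ≤ k by omega)
  obtain ⟨X, H, hX, hH, hw⟩ := window (by omega) p1 p2 hn
  have hodd : Odd (3 ^ e * 3 ^ e) := (Odd.pow (by decide)).mul (Odd.pow (by decide))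
  have he0 : e ≠ 0 := by rintro rfl; simp at he
  obtain ⟨t, t1, t2, ht⟩ := hz (k + 1) (by omega) (fun l => if l = 2 then {0} else
      insert 0 ((range l).filter fun x => 3 ^ e * 3 ^ e * x ≡ n [MOD l])) (by
    intro l hl _
    have h2 := hl.two_le
    by_cases h : l = 2
    · subst h; simp
    · simp only [if_neg h]
      refine ⟨insert_subset (mem_range.2 (by omega)) (filter_subset _ _), ?_⟩
      have h1 : ((range l).filter fun x => 3 ^ e * 3 ^ e * x ≡ n [MOD l]).card ≤ 1 := by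
        refine card_le_one.2 fun x hx y hy => ?_
        obtain ⟨x1, x2⟩ := mem_filter.1 hx
        obtain ⟨y1, y2⟩ := mem_filter.1 hy
        by_cases h' : l = 3
        · subst h'
          exact absurd ((x2.dvd_iff dvd_rfl).1
            (((dvd_pow_self 3 he0).mul_right _).mul_right _)) h3
        · have hc : Nat.Coprime l (3 ^ e) :=
            ((Nat.coprime_primes hl Nat.prime_three).2 h').pow_right e
          exact Nat.ModEq.eq_of_lt_of_lt
            (Nat.ModEq.cancel_left_of_coprime (hc.mul_right hc) (x2.trans y2.symm))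
            (mem_range.1 x1) (mem_range.1 y1)
      have := card_insert_le 0 ((range l).filter fun x => 3 ^ e * 3 ^ e * x ≡ n [MOD l])
      omega) X H hH
  obtain ⟨w, w1, w2, w3, -⟩ := hw t t1 t2
  have ht0 : ∀ l, l.Prime → l ≤ k + 1 → ¬l ∣ t := fun l hl hlk hd => by
    apply ht l hl hlk
    rw [Nat.mod_eq_zero_of_dvd hd]
    by_cases h : l = 2 <;> simp [h]
  have hw0 : w ≠ 0 := by
    have := hodd.pos
    omega
  rw [w1]
  refine core he (by omega) p1 (good_rough (by omega) fun l hl hd => ?_)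
    (good_rough hw0 fun l hl hd => ?_) w2 w3
  · by_contra h
    exact ht0 l hl (by omega) hd
  · by_contra h
    by_cases h2 : l = 2
    · subst h2
      have h4 : Odd t := Nat.not_even_iff_odd.1 fun h5 =>
        ht0 2 Nat.prime_two (by omega) h5.two_dvd
      have h6 := (hodd.mul h4).add_even (even_iff_two_dvd.2 hd)
      rw [← w1] at h6
      exact Nat.not_even_iff_odd.2 h6 hev
    · apply ht l hl (by omega)
      simp only [if_neg h2]
      refine mem_insert_of_mem (mem_filter.2 ⟨mem_range.2 (Nat.mod_lt _ hl.pos), ?_⟩)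
      have h7 : 3 ^ e * 3 ^ e * t + 0 ≡ 3 ^ e * 3 ^ e * t + w [MOD l] :=
        Nat.ModEq.add_left _ (Nat.modEq_zero_iff_dvd.2 hd).symm
      rw [← w1] at h7
      exact ((Nat.mod_modEq t l).mul_left _).trans h7

theorem good_odd : ∃ k₀ : ℕ, ∀ k n : ℕ, k₀ ≤ k → Odd n → ¬3 ∣ n →
    72 ^ 2 * (2916 ^ 2 * 2 ^ 13) * k ^ 19 ≤ n ^ 2 → Good k n := by
  obtain ⟨z₀, hz⟩ := sieve_two
  obtain ⟨k₀, hk₀⟩ := good_even
  refine ⟨z₀ + k₀ + 2, fun k n hk hodn h3 hn => ?_⟩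
  obtain ⟨e, he, p1, p2⟩ := exists_odd_pow (show 1 ≤ k by omega)
  have hpow : k ^ 17 ≤ k ^ 19 := Nat.pow_le_pow_right (by omega) (by norm_num)
  obtain ⟨X, H, hX, hH, hw⟩ := window (n := n) (by omega) p1 p2 (by omega)
  have hodd : Odd (3 ^ e * 3 ^ e) := (Odd.pow (by decide)).mul (Odd.pow (by decide))
  have he0 : e ≠ 0 := by rintro rfl; simp at he
  obtain ⟨t, t1, t2, ht⟩ := hz (k + 1) (by omega) (fun _ => {0}) (by
    intro l hl _
    have h2 := hl.two_le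
    refine ⟨singleton_subset_iff.2 (mem_range.2 (by omega)), ?_⟩
    rw [card_singleton]; omega) X H hH
  obtain ⟨w, w1, w2, w3, w4⟩ := hw t t1 t2
  have ht0 : ∀ l, l.Prime → l ≤ k + 1 → ¬l ∣ t := fun l hl hlk hd => by
    apply ht l hl hlk
    rw [Nat.mod_eq_zero_of_dvd hd]
    exact mem_singleton_self 0
  have h4 : Odd t := Nat.not_even_iff_odd.1 fun h5 => ht0 2 Nat.prime_two (by omega) h5.two_dvd
  have h5 : Even w := by
    rw [w1] at hodn
    exact (Nat.odd_add.1 hodn).1 (hodd.mul h4)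
  have h6 : ¬3 ∣ w := fun hd => h3 (w1 ▸
    Nat.dvd_add (((dvd_pow_self 3 he0).mul_right _).mul_right _) hd)
  have h7 : 2916 ^ 2 * 2 ^ 13 * k ^ 17 ≤ w ^ 2 := by
    have hk0 : 0 < k := by omega
    refine Nat.le_of_mul_le_mul_left (c := 72 ^ 2 * k ^ 2) ?_ (by positivity)
    calc 72 ^ 2 * k ^ 2 * (2916 ^ 2 * 2 ^ 13 * k ^ 17)
        = 72 ^ 2 * (2916 ^ 2 * 2 ^ 13) * k ^ 19 := by ring
      _ ≤ n ^ 2 := hn
      _ ≤ (72 * k * w) ^ 2 := Nat.pow_le_pow_left w4 2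
      _ = 72 ^ 2 * k ^ 2 * w ^ 2 := by ring
  rw [w1]
  refine core he (by omega) p1 (good_rough (by omega) fun l hl hd => ?_)
    (hk₀ k w (by omega) h5 h6 h7) w2 w3
  by_contra h
  exact ht0 l hl (by omega) hd

theorem extract {C a k₀ n : ℕ} (hC : 1 ≤ C) (ha : 1 ≤ a) (hn : C * (k₀ + 3) ^ a ≤ n ^ 2)
    (h : ∀ k, k₀ ≤ k → C * k ^ a ≤ n ^ 2 → Good k n) :
    ∃ r, n ^ 2 ≤ C * 4 ^ a * r ^ a ∧ Good (r + 2) n := by
  classical
  have hex : ∃ k, n ^ 2 < C * (k + 1) ^ a := ⟨n ^ 2, by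
    calc n ^ 2 < n ^ 2 + 1 := Nat.lt_succ_self _
      _ ≤ (n ^ 2 + 1) ^ a := Nat.le_self_pow (by omega) _
      _ ≤ C * (n ^ 2 + 1) ^ a := Nat.le_mul_of_pos_left _ hC⟩
  have h1 := Nat.find_spec hex
  have h2 : k₀ + 3 ≤ Nat.find hex := by
    by_contra h3
    have : C * (Nat.find hex + 1) ^ a ≤ C * (k₀ + 3) ^ a :=
      Nat.mul_le_mul_left _ (Nat.pow_le_pow_left (by omega) _)
    omega
  obtain ⟨r, hr⟩ : ∃ r, Nat.find hex = r + 2 := ⟨Nat.find hex - 2, by omega⟩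
  have h4 := Nat.find_min hex (show r + 1 < Nat.find hex by omega)
  rw [hr] at h1 h2
  refine ⟨r, ?_, h (r + 2) (by omega) (not_lt.1 h4)⟩
  calc n ^ 2 ≤ C * (r + 2 + 1) ^ a := h1.le
    _ ≤ C * (4 * r) ^ a := Nat.mul_le_mul_left _ (Nat.pow_le_pow_left (by omega) _)
    _ = C * 4 ^ a * r ^ a := by rw [mul_pow, mul_assoc]

theorem main : ∃ C n₀ : ℕ, ∀ n, n₀ ≤ n → ¬3 ∣ n →
    ∃ r, n ^ 2 ≤ C * r ^ (17 + 2 * (n % 2)) ∧ Good (r + 2) n := by
  obtain ⟨k₁, h₁⟩ := good_even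
  obtain ⟨k₂, h₂⟩ := good_odd
  obtain ⟨C, hC⟩ : ∃ C : ℕ, C = 72 ^ 2 * (2916 ^ 2 * 2 ^ 13) := ⟨_, rfl⟩
  have hC1 : 1 ≤ C := by rw [hC]; norm_num
  refine ⟨C * 4 ^ 19, C * (k₁ + 3) ^ 17 + C * (k₂ + 3) ^ 19, fun n hn h3 => ?_⟩
  have hnn : n ≤ n ^ 2 := Nat.le_self_pow two_ne_zero n
  rcases Nat.even_or_odd n with h | h
  · obtain ⟨r, r1, r2⟩ := extract (C := C) (a := 17) (k₀ := k₁) (n := n) hC1 (by norm_num)
      (by omega) fun k hk hkn => h₁ k n hk h h3 (le_trans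
        (Nat.mul_le_mul_right _ (by rw [hC]; norm_num)) hkn)
    refine ⟨r, ?_, r2⟩
    rw [Nat.even_iff.1 h]
    exact r1.trans (Nat.mul_le_mul_right _ (Nat.mul_le_mul_left _ (by norm_num)))
  · obtain ⟨r, r1, r2⟩ := extract (C := C) (a := 19) (k₀ := k₂) (n := n) hC1 (by norm_num)
      (by omega) fun k hk hkn => h₂ k n hk h h3 (hC ▸ hkn)
    refine ⟨r, ?_, r2⟩
    rw [Nat.odd_iff.1 h]
    exact r1

end Pool.Agent.FS.EvenOrders
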